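import Mathlib

set_option autoImplicit false

namespace Pool.Agent.H.MP_49e1e0_lc

open Finset Module

abbrev F := ZMod 2

lemma cardle {R : Type*} [CommRing R] [Nontrivial R] {α κ : Type*} (J : Finset α) (K : Finset κ)
    (u : κ → α → R)
    (h : ∀ l : α → R, (∀ k ∈ K, ∑ C ∈ J, l C * u k C = 0) → ∀ C ∈ J, l C = 0) :
    J.card ≤ K.card := by
  classical
  have hl : LinearIndependent R (fun (C : J) (k : K) => u k C) := by
    rw [Fintype.linearIndependent_iff]
    intro g hg C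
    have := h (fun x => if hx : x ∈ J then g ⟨x, hx⟩ else 0) (fun k hk => ?_) C C.2
    · simpa using this
    · have h1 := congrFun hg ⟨k, hk⟩
      simp only [Finset.sum_apply, Pi.smul_apply, smul_eq_mul, Pi.zero_apply] at h1
      rw [← Finset.sum_coe_sort J, ← h1]
      exact Finset.sum_congr rfl fun x _ => by simp
  simpa using hl.fintype_card_le_finrank

def Fc (x y z : F) : F := (1 + x) * (1 + y) * (1 + z)

def Bc (x y z x' y' z' : F) : F :=
  1 + Fc x y z + Fc x' y' z' + Fc (x + x') (y + y') (z + z')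

def Dc (x y z x' y' z' x'' y'' z'' : F) : F :=
  x * (y' * z'' + z' * y'') + y * (x' * z'' + z' * x'') + z * (x' * y'' + y' * x'')

lemma F01 : ∀ r : F, r = 0 ∨ r = 1 := by decide
lemma Fc0 : Fc 0 0 0 = 1 := by decide
lemma Fc1 : ∀ x y z : F, ¬(x = 0 ∧ y = 0 ∧ z = 0) → Fc x y z = 0 := by decide
lemma Bsym : ∀ x y z x' y' z' : F, Bc x y z x' y' z' = Bc x' y' z' x y z := by decide
lemma B0 : ∀ x' y' z' : F, Bc 0 0 0 x' y' z' = 0 := by decide
lemma B00 : ∀ z z' : F, Bc 0 0 z 0 0 z' = 0 := by decide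
lemma Badd : ∀ x y z x' y' z' x'' y'' z'' : F, Bc (x + x') (y + y') (z + z') x'' y'' z'' =
    Bc x y z x'' y'' z'' + Bc x' y' z' x'' y'' z'' + Dc x y z x' y' z' x'' y'' z'' := by
  decide +kernel
lemma Dsq : ∀ x y z x' y' z' x'' y'' z'' : F, Dc x y z x' y' z' x'' y'' z'' =
    x * ((y' + z') * (y'' + z'') + y' * y'' + z' * z'') +
    y * ((x' + z') * (x'' + z'') + x' * x'' + z' * z'') +
    z * ((x' + y') * (x'' + y'') + x' * x'' + y' * y'') := by
  decide +kernel
lemma addself : ∀ x y z u : F, u = 0 → u + x + y + z = 0 → z = x + y := by decide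

variable {α G : Type*} [AddCommGroup G] [Module F G]

lemma addz {ι : Type*} [Fintype ι] (e : Basis ι F G) (h : Dual F G → F)
    (ha : ∀ x y, h (x + y) = h x + h y) (h0 : ∀ i, h (e.coord i) = 0) (φ : Dual F G) :
    h φ = 0 := by
  classical
  have hz : h 0 = 0 := by
    have := ha 0 0
    rw [add_zero] at this
    exact left_eq_add.1 this
  rw [← e.sum_dual_apply_smul_coord φ]
  induction (univ : Finset ι) using Finset.induction_on with
  | empty => simpa using hz
  | insert i s hi ih =>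
    rw [sum_insert hi, ha, ih, add_zero]
    rcases F01 (φ (e i)) with k | k <;> simp [k, hz, h0]

/-- the separation property of the witnesses -/
def Sep (J : Finset α) (a b c : α → G) (w : α → Dual F G) : Prop :=
  ∀ C ∈ J, ∀ C' ∈ J, (w C (a C') = 0 ∧ w C (b C') = 0 ∧ w C (c C') = 0) ↔ C = C'

lemma aff {ι : Type*} [Fintype ι] (e : Basis ι F G) (J : Finset α) (a b c : α → G)
    (w : α → Dual F G) (hw : Sep J a b c w) (S : Finset ι)
    (hS : ∀ C ∈ J, ∀ i ∉ S, e.coord i (a C) = 0 ∧ e.coord i (b C) = 0 ∧ e.coord i (c C) = 0)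
    (l : α → F)
    (hB : ∀ φ ψ : Dual F G, ∑ C ∈ J, l C *
      Bc (φ (a C)) (φ (b C)) (φ (c C)) (ψ (a C)) (ψ (b C)) (ψ (c C)) = 0)
    (h1 : ∑ C ∈ J, l C = 0)
    (h2 : ∀ i ∈ S, ∑ C ∈ J, l C * Fc (e.coord i (a C)) (e.coord i (b C)) (e.coord i (c C)) = 0) :
    ∀ C ∈ J, l C = 0 := by
  classical
  intro C hC
  have := addz e (fun φ => ∑ C ∈ J, l C * Fc (φ (a C)) (φ (b C)) (φ (c C))) ?_ ?_ (w C)
  · rw [sum_eq_single_of_mem C hC] at this
    · obtain ⟨k1, k2, k3⟩ := (hw C hC C hC).2 rfl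
      simpa [k1, k2, k3, Fc0] using this
    · intro C' hC' hne
      rw [Fc1 _ _ _ fun k => hne ((hw C hC C' hC').1 k).symm, mul_zero]
  · intro x y
    have := hB x y
    simp only [Bc, mul_add, mul_one, sum_add_distrib] at this
    simpa using addself _ _ _ _ h1 this
  · intro i
    by_cases hi : i ∈ S
    · exact h2 i hi
    · rw [← h1]
      refine sum_congr rfl fun C hC => ?_
      obtain ⟨k1, k2, k3⟩ := hS C hC i hi
      rw [k1, k2, k3, Fc0, mul_one]

lemma piv {κ : Type*} [LinearOrder κ] (T : Finset (κ → F)) (E : Finset κ)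
    (hE : ∀ k ∈ E, ∃ f ∈ Submodule.span F (T : Set (κ → F)), f k ≠ 0 ∧ ∀ k', f k' ≠ 0 → k' ≤ k) :
    E.card ≤ T.card := by
  classical
  choose! f h1 h2 h3 using hE
  have h4 : ∀ k ∈ E, ∃ r : (κ → F) → F, ∑ t ∈ T, r t • t = f k := fun k hk => by
    obtain ⟨r, -, hr⟩ := Submodule.mem_span_finset.1 (h1 k hk)
    exact ⟨r, hr⟩
  choose! r hr using h4
  refine cardle E T (fun t k => r k t) fun l hl => ?_
  by_contra hne
  push Not at hne
  obtain ⟨k0, hk0, hm⟩ := exists_max_image (E.filter fun k => l k ≠ 0) id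
    (by obtain ⟨k, hk, h⟩ := hne; exact ⟨k, mem_filter.2 ⟨hk, h⟩⟩)
  obtain ⟨hk1, hk2⟩ := mem_filter.1 hk0
  have e1 : ∑ k ∈ E, l k * f k k0 = 0 := by
    have : ∀ k ∈ E, l k * f k k0 = ∑ t ∈ T, l k * r k t * t k0 := fun k hk => by
      rw [← hr k hk]
      simp [Finset.sum_apply, mul_sum, mul_assoc]
    rw [sum_congr rfl this, sum_comm]
    refine sum_eq_zero fun t ht => ?_
    rw [← sum_mul, hl t ht, zero_mul]
  rw [sum_eq_single_of_mem k0 hk1] at e1
  · exact mul_ne_zero hk2 (h2 k0 hk1) e1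
  · intro k hk hne
    by_contra h
    have a1 := h3 k hk k0 (right_ne_zero_of_mul h)
    have a2 := hm k (mem_filter.2 ⟨hk, left_ne_zero_of_mul h⟩)
    exact hne (le_antisymm a2 a1)

lemma lw {ι : Type*} [Fintype ι] [DecidableEq ι] (E : Finset (ι × ι)) (t : ℝ) (ht : 0 ≤ t)
    (hE : (E.card : ℝ) ≤ t ^ 2) :
    ((univ.filter fun p : ι × ι × ι =>
      (p.1, p.2.1) ∈ E ∧ (p.1, p.2.2) ∈ E ∧ p.2 ∈ E).card : ℝ) ≤ t ^ 3 := by
  rw [card_eq_sum_card_fiberwise (f := Prod.fst) (t := univ) (fun _ _ => mem_univ _)]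
  have h1 : E.card = ∑ i, (E.filter fun p => p.1 = i).card :=
    card_eq_sum_card_fiberwise (fun _ _ => mem_univ _)
  have h2 : (E.card : ℝ) * t ≤ t ^ 3 := by nlinarith
  refine le_trans ?_ h2
  rw [h1]
  push_cast
  rw [sum_mul]
  refine sum_le_sum fun i _ => ?_
  set X := ((univ.filter fun p : ι × ι × ι =>
      (p.1, p.2.1) ∈ E ∧ (p.1, p.2.2) ∈ E ∧ p.2 ∈ E).filter fun p => p.1 = i) with hX
  set Y := (E.filter fun p => p.1 = i) with hY
  have a1 : X.card ≤ E.card := by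
    refine card_le_card_of_injOn Prod.snd (fun p hp => ?_) fun p hp p' hp' k => ?_
    · simp only [hX, coe_filter, mem_filter, Set.mem_setOf_eq] at hp
      exact hp.1.2.2.2
    · simp only [hX, coe_filter, mem_filter, Set.mem_setOf_eq] at hp hp'
      exact Prod.ext (hp.2.trans hp'.2.symm) k
  have a2 : X.card ≤ (Y ×ˢ Y).card := by
    refine card_le_card_of_injOn (fun p => ((p.1, p.2.1), (p.1, p.2.2))) (fun p hp => ?_)
      fun p hp p' hp' k => ?_
    · simp only [hX, coe_filter, mem_filter, Set.mem_setOf_eq] at hp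
      simp only [hY, coe_product, Set.mem_prod, coe_filter, Set.mem_setOf_eq]
      exact ⟨⟨hp.1.2.1, hp.2⟩, hp.1.2.2.1, hp.2⟩
    · simp only [Prod.mk.injEq] at k
      exact Prod.ext k.1.1 (Prod.ext k.1.2 k.2.2)
  rw [card_product] at a2
  have b1 : (X.card : ℝ) ≤ E.card := by exact_mod_cast a1
  have b2 : (X.card : ℝ) ≤ Y.card * Y.card := by exact_mod_cast a2
  have b3 : (0 : ℝ) ≤ Y.card := by positivity
  rcases le_total (Y.card : ℝ) t with k | k <;> nlinarith

end Pool.Agent.H.MP_49e1e0_lc
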