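import Pool.Agent.H.MP_49e1e0_lc.A

set_option autoImplicit false

namespace Pool.Agent.H.MP_49e1e0_lc

open Finset Module

variable {α G : Type*} [AddCommGroup G] [Module F G]

/-- all six combinations lie in V -/
def Six (J : Finset α) (a b c : α → G) (V : Finset G) : Prop :=
  ∀ C ∈ J, a C ∈ V ∧ b C ∈ V ∧ c C ∈ V ∧ a C + b C ∈ V ∧ a C + c C ∈ V ∧ b C + c C ∈ V

lemma core {D : ℕ} (e : Basis (Fin D) F G) (J : Finset α) (a b c : α → G)
    (w : α → Dual F G) (hw : Sep J a b c w) (V : Finset G) (hV : Six J a b c V)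
    (S' S : Finset (Fin D))
    (hS' : ∀ C ∈ J, ∀ i ∉ S', e.coord i (a C) = 0 ∧ e.coord i (b C) = 0)
    (hS : ∀ C ∈ J, ∀ i ∉ S, e.coord i (a C) = 0 ∧ e.coord i (b C) = 0 ∧ e.coord i (c C) = 0)
    (t : ℝ) (ht : 0 ≤ t) (hn : (V.card : ℝ) ≤ t ^ 2) :
    (J.card : ℝ) ≤ t ^ 3 + S'.card * S.card + S.card + 1 := by
  classical
  let sq : G → (Fin D ×ₗ Fin D) → F := fun v k => e.coord (ofLex k).1 v * e.coord (ofLex k).2 v
  let T : Submodule F ((Fin D ×ₗ Fin D) → F) := Submodule.span F (V.image sq : Set _)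
  let E : Finset (Fin D × Fin D) := univ.filter fun p =>
    ∃ f ∈ T, f (toLex p) ≠ 0 ∧ ∀ k', f k' ≠ 0 → k' ≤ toLex p
  have hE : (E.card : ℝ) ≤ t ^ 2 := by
    have h1 := piv (V.image sq) (E.map toLex.toEmbedding) (fun k hk => by
      obtain ⟨p, hp, rfl⟩ := mem_map.1 hk
      exact (mem_filter.1 hp).2)
    rw [card_map] at h1
    have h2 : (E.card : ℝ) ≤ V.card := by exact_mod_cast h1.trans card_image_le
    linarith
  let X := univ.filter fun p : Fin D × Fin D × Fin D =>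
      (p.1, p.2.1) ∈ E ∧ (p.1, p.2.2) ∈ E ∧ p.2 ∈ E
  have hX : (X.card : ℝ) ≤ t ^ 3 := lw E t ht hE
  let dd : Dual F G → Dual F G → Dual F G → α → F := fun φ ψ ρ C =>
    Dc (φ (a C)) (φ (b C)) (φ (c C)) (ψ (a C)) (ψ (b C)) (ψ (c C)) (ρ (a C)) (ρ (b C)) (ρ (c C))
  let bb : Dual F G → Dual F G → α → F := fun φ ψ C =>
    Bc (φ (a C)) (φ (b C)) (φ (c C)) (ψ (a C)) (ψ (b C)) (ψ (c C))
  have key := cardle (R := F) J ((X.disjSum (S' ×ˢ S)).disjSum (S.disjSum ({()} : Finset Unit)))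
    (Sum.elim (Sum.elim (fun p => dd (e.coord p.1) (e.coord p.2.1) (e.coord p.2.2))
      (fun p => bb (e.coord p.1) (e.coord p.2)))
      (Sum.elim (fun i C => Fc (e.coord i (a C)) (e.coord i (b C)) (e.coord i (c C)))
        (fun _ _ => 1))) fun l hl => ?_
  · simp only [card_disjSum, card_product, card_singleton] at key
    have : (J.card : ℝ) ≤ X.card + S'.card * S.card + (S.card + 1) := by exact_mod_cast key
    linarith
  have l1 : ∀ p ∈ X, ∑ C ∈ J, l C * dd (e.coord p.1) (e.coord p.2.1) (e.coord p.2.2) C = 0 :=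
    fun p hp => hl (.inl (.inl p)) (by simpa using hp)
  have l2 : ∀ i ∈ S', ∀ j ∈ S, ∑ C ∈ J, l C * bb (e.coord i) (e.coord j) C = 0 :=
    fun i hi j hj => hl (.inl (.inr (i, j))) (by simp [hi, hj])
  have l3 : ∀ i ∈ S, ∑ C ∈ J, l C *
      Fc (e.coord i (a C)) (e.coord i (b C)) (e.coord i (c C)) = 0 :=
    fun i hi => hl (.inr (.inl i)) (by simpa using hi)
  have l4 : ∑ C ∈ J, l C = 0 := by simpa using hl (.inr (.inr ())) (by simp)
  let om : Dual F G → Dual F G → Dual F G → F := fun φ ψ ρ => ∑ C ∈ J, l C * dd φ ψ ρ C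
  have s1 : ∀ φ ψ ρ, om φ ψ ρ = om ψ φ ρ := fun φ ψ ρ =>
    sum_congr rfl fun C _ => by simp only [dd, Dc]; ring
  have s2 : ∀ φ ψ ρ, om φ ψ ρ = om ρ φ ψ := fun φ ψ ρ =>
    sum_congr rfl fun C _ => by simp only [dd, Dc]; ring
  have s3 : ∀ φ φ' ψ ρ, om (φ + φ') ψ ρ = om φ ψ ρ + om φ' ψ ρ := fun φ φ' ψ ρ => by
    simp only [om, ← sum_add_distrib]
    exact sum_congr rfl fun C _ => by simp only [dd, Dc, LinearMap.add_apply]; ring
  have mT : ∀ φ, (fun k : Fin D ×ₗ Fin D => om φ (e.coord (ofLex k).1) (e.coord (ofLex k).2)) ∈ T :=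
    fun φ => by
      have : (fun k : Fin D ×ₗ Fin D => om φ (e.coord (ofLex k).1) (e.coord (ofLex k).2)) =
          ∑ C ∈ J, l C • (φ (a C) • (sq (b C + c C) + sq (b C) + sq (c C)) +
            φ (b C) • (sq (a C + c C) + sq (a C) + sq (c C)) +
            φ (c C) • (sq (a C + b C) + sq (a C) + sq (b C))) := by
        funext k
        simp only [om, dd, Dsq, Finset.sum_apply, Pi.smul_apply, Pi.add_apply, smul_eq_mul, sq,
          map_add]
      rw [this]
      refine T.sum_mem fun C hC => T.smul_mem _ ?_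
      have g : ∀ v ∈ V, sq v ∈ T := fun v hv =>
        Submodule.subset_span (mem_coe.2 (mem_image_of_mem _ hv))
      obtain ⟨v1, v2, v3, v4, v5, v6⟩ := hV C hC
      exact T.add_mem (T.add_mem
        (T.smul_mem _ (T.add_mem (T.add_mem (g _ v6) (g _ v2)) (g _ v3)))
        (T.smul_mem _ (T.add_mem (T.add_mem (g _ v5) (g _ v1)) (g _ v3))))
        (T.smul_mem _ (T.add_mem (T.add_mem (g _ v4) (g _ v1)) (g _ v2)))
  have z1 : ∀ i j k, om (e.coord i) (e.coord j) (e.coord k) = 0 := by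
    by_contra hne
    push Not at hne
    obtain ⟨p, hp, hm⟩ := exists_max_image (univ.filter fun p : Fin D × Fin D × Fin D =>
      om (e.coord p.1) (e.coord p.2.1) (e.coord p.2.2) ≠ 0) (fun p => toLex (p.1, toLex p.2))
      (by obtain ⟨i, j, k, h⟩ := hne; exact ⟨(i, j, k), by simpa using h⟩)
    obtain ⟨i, j, k⟩ := p
    have hp' : om (e.coord i) (e.coord j) (e.coord k) ≠ 0 := (mem_filter.1 hp).2
    have hm' : ∀ i' j' k', om (e.coord i') (e.coord j') (e.coord k') ≠ 0 →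
        i' < i ∨ i' = i ∧ (j' < j ∨ j' = j ∧ k' ≤ k) := fun i' j' k' h => by
      simpa [Prod.Lex.toLex_le_toLex] using hm (i', j', k') (by simpa using h)
    refine hp' (l1 (i, j, k) (mem_filter.2 ⟨mem_univ _, mem_filter.2 ⟨mem_univ _, _,
      mT (e.coord k), ?_, ?_⟩, mem_filter.2 ⟨mem_univ _, _, mT (e.coord j), ?_, ?_⟩,
      mem_filter.2 ⟨mem_univ _, _, mT (e.coord i), ?_, ?_⟩⟩))
    · rw [s2] at hp'
      simpa using hp'
    · intro q hq
      obtain ⟨⟨i', j'⟩, rfl⟩ := toLex.surjective q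
      have := hm' i' j' k (by rw [s2]; simpa using hq)
      rw [Prod.Lex.toLex_le_toLex]
      dsimp only
      omega
    · rw [s1] at hp'
      simpa using hp'
    · intro q hq
      obtain ⟨⟨i', j'⟩, rfl⟩ := toLex.surjective q
      have := hm' i' j j' (by rw [s1]; simpa using hq)
      rw [Prod.Lex.toLex_le_toLex]
      dsimp only
      omega
    · simpa using hp'
    · intro q hq
      obtain ⟨⟨i', j'⟩, rfl⟩ := toLex.surjective q
      have := hm' i i' j' (by simpa using hq)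
      rw [Prod.Lex.toLex_le_toLex]
      dsimp only
      omega
  have z2 : ∀ φ j k, om φ (e.coord j) (e.coord k) = 0 := fun φ j k =>
    addz e (fun φ => om φ (e.coord j) (e.coord k)) (fun _ _ => s3 _ _ _ _) (fun i => z1 i j k) φ
  have z3 : ∀ φ ψ k, om φ ψ (e.coord k) = 0 := fun φ ψ k => by
    rw [s1]
    exact addz e (fun ψ => om ψ φ (e.coord k)) (fun _ _ => s3 _ _ _ _)
      (fun i => by rw [s1]; exact z2 φ i k) ψ
  have z4 : ∀ φ ψ ρ, om φ ψ ρ = 0 := fun φ ψ ρ => by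
    rw [s2]
    exact addz e (fun ρ => om ρ φ ψ) (fun _ _ => s3 _ _ _ _)
      (fun i => by rw [← s2]; exact z3 φ ψ i) ρ
  let be : Dual F G → Dual F G → F := fun φ ψ => ∑ C ∈ J, l C * bb φ ψ C
  have t1 : ∀ φ ψ, be φ ψ = be ψ φ := fun φ ψ =>
    sum_congr rfl fun C _ => by simp only [bb]; rw [Bsym]
  have t2 : ∀ φ φ' ψ, be (φ + φ') ψ = be φ ψ + be φ' ψ := fun φ φ' ψ => by
    have := z4 φ φ' ψ
    simp only [om, dd] at this
    simp only [be, bb, LinearMap.add_apply, Badd, mul_add, sum_add_distrib, this, add_zero]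
  have t3 : ∀ i ∉ S, ∀ ψ, be (e.coord i) ψ = 0 := fun i hi ψ =>
    sum_eq_zero fun C hC => by
      obtain ⟨k1, k2, k3⟩ := hS C hC i hi
      simp only [bb]
      rw [k1, k2, k3, B0, mul_zero]
  have t4 : ∀ i j, be (e.coord i) (e.coord j) = 0 := fun i j => by
    by_cases hi : i ∈ S
    swap
    · exact t3 i hi _
    by_cases hj : j ∈ S
    swap
    · rw [t1]; exact t3 j hj _
    by_cases hi' : i ∈ S'
    · exact l2 i hi' j hj
    by_cases hj' : j ∈ S'
    · rw [t1]; exact l2 j hj' i hi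
    refine sum_eq_zero fun C hC => ?_
    obtain ⟨k1, k2⟩ := hS' C hC i hi'
    obtain ⟨k3, k4⟩ := hS' C hC j hj'
    simp only [bb]
    rw [k1, k2, k3, k4, B00, mul_zero]
  have t5 : ∀ φ j, be φ (e.coord j) = 0 := fun φ j =>
    addz e (fun φ => be φ (e.coord j)) (fun _ _ => t2 _ _ _) (fun i => t4 i j) φ
  refine aff e J a b c w hw S hS l (fun φ ψ => ?_) l4 l3
  change be φ ψ = 0
  rw [t1]
  exact addz e (fun ψ => be ψ φ) (fun _ _ => t2 _ _ _) (fun i => by rw [t1]; exact t5 φ i) ψ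

def v (x : F) : ℤ := x.val

def gg : Fin 4 → F → F → F → F → ℤ :=
  ![fun p q r s => -(v p * v (r + s)) + 2 * v (q * r * s + p * r * s + p * q * r),
    fun p q r s => v p * v (r + s) + 2 * v (q * r * s + p * r + p * r * s + p * q * r),
    fun p q r s => -(v p * v (r + s)) + 2 * v (q * r + q * r * s + p * s + p * r * s + p * q * r),
    fun p q r s => v p * v s + 2 * v (q * r + q * r * s + p * r + p * q * r)]

def k1 {H : Type*} [Add H] (x y _z : H) : Fin 4 → H := ![x, x, y, x + y]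
def k2 {H : Type*} [Add H] (_x y z : H) : Fin 4 → H := ![y, z, z, y + z]

def GG (x y z x' y' z' : F) : ℤ :=
  ∑ i, gg i (k1 x y z i) (k2 x y z i) (k1 x' y' z' i) (k2 x' y' z' i)

lemma GG1 : ∀ x y z x' y' z' : F, GG x y z x' y' z' = 2 * (GG x y z x' y' z' / 2) ∧
    ((GG x y z x' y' z' / 2 : ℤ) : F) = Bc x y z x' y' z' := by
  decide +kernel

lemma mk1 (φ : Dual F G) (x y z : G) (i : Fin 4) : φ (k1 x y z i) = k1 (φ x) (φ y) (φ z) i := by
  fin_cases i <;> simp [k1]

lemma mk2 (φ : Dual F G) (x y z : G) (i : Fin 4) : φ (k2 x y z i) = k2 (φ x) (φ y) (φ z) i := by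
  fin_cases i <;> simp [k2]

lemma step3 [DecidableEq G] {D : ℕ} (e : Basis (Fin D) F G) (J : Finset α) (a b c : α → G)
    (w : α → Dual F G) (hw : Sep J a b c w) (S : Finset (Fin D))
    (hS : ∀ C ∈ J, ∀ i ∉ S, e.coord i (a C) = 0 ∧ e.coord i (b C) = 0 ∧ e.coord i (c C) = 0) :
    J.card ≤ ∑ i : Fin 4, (J.image fun C => (k1 (a C) (b C) (c C) i, k2 (a C) (b C) (c C) i)).card
      + S.card + 1 := by
  classical
  let ky : Fin 4 → α → G × G := fun i C => (k1 (a C) (b C) (c C) i, k2 (a C) (b C) (c C) i)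
  let K := ((univ : Finset (Fin 4)).sigma fun i => J.image (ky i)).disjSum
    (S.disjSum ({()} : Finset Unit))
  let u : (Σ _ : Fin 4, G × G) ⊕ (Fin D ⊕ Unit) → α → ℤ :=
    Sum.elim (fun p C => if ky p.1 C = p.2 then 1 else 0)
      (Sum.elim (fun i C => v (Fc (e.coord i (a C)) (e.coord i (b C)) (e.coord i (c C))))
        (fun _ _ => 1))
  have key := cardle (R := ℤ) J K u fun l hl => ?_
  · simpa [K, card_disjSum, card_sigma, add_assoc] using key
  have ev : ∀ l : α → ℤ, (∀ k ∈ K, ∑ C ∈ J, l C * u k C = 0) → ∀ C ∈ J, (2 : ℤ) ∣ l C := by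
    intro l hl C hC
    have l1 : ∀ i (g : G × G → ℤ), ∑ C ∈ J, l C * g (ky i C) = 0 := fun i g => by
      rw [← sum_fiberwise_of_maps_to (t := J.image (ky i)) (g := ky i)
        (fun C hC => mem_image_of_mem _ hC)]
      refine sum_eq_zero fun t ht => ?_
      have := hl (.inl ⟨i, t⟩) (by simpa [K] using ht)
      simp only [u, Sum.elim_inl, mul_ite, mul_one, mul_zero, ← sum_filter] at this
      rw [sum_congr rfl (g := fun C => l C * g t) fun C hC => by rw [(mem_filter.1 hC).2],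
        ← sum_mul, this, zero_mul]
    have := aff e J a b c w hw S hS (fun C => (l C : F)) (fun φ ψ => ?_) ?_ (fun i hi => ?_) C hC
    · exact (ZMod.intCast_zmod_eq_zero_iff_dvd (l C) 2).1 this
    · have m1 : ∑ C ∈ J, l C *
          GG (φ (a C)) (φ (b C)) (φ (c C)) (ψ (a C)) (ψ (b C)) (ψ (c C)) = 0 := by
        simp only [GG, mul_sum]
        rw [sum_comm]
        refine sum_eq_zero fun i _ => ?_
        simpa only [ky, mk1, mk2] using l1 i fun t => gg i (φ t.1) (φ t.2) (ψ t.1) (ψ t.2)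
      have m2 : ∑ C ∈ J, l C *
          (GG (φ (a C)) (φ (b C)) (φ (c C)) (ψ (a C)) (ψ (b C)) (ψ (c C)) / 2) = 0 := by
        have : 2 * ∑ C ∈ J, l C *
          (GG (φ (a C)) (φ (b C)) (φ (c C)) (ψ (a C)) (ψ (b C)) (ψ (c C)) / 2) = 0 := by
          rw [← m1, mul_sum]
          refine sum_congr rfl fun C _ => ?_
          conv_rhs => rw [(GG1 _ _ _ _ _ _).1]
          ring
        omega
      have m3 := congrArg (Int.cast : ℤ → F) m2
      simp only [Int.cast_sum, Int.cast_mul, (GG1 _ _ _ _ _ _).2, Int.cast_zero] at m3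
      exact m3
    · have m3 := congrArg (Int.cast : ℤ → F) (hl (.inr (.inr ())) (by simp [K]))
      simpa [u] using m3
    · have m3 := congrArg (Int.cast : ℤ → F) (hl (.inr (.inl i)) (by simpa [K] using hi))
      simpa [u, v] using m3
  have ds : ∀ m : ℕ, ∀ l : α → ℤ, (∀ k ∈ K, ∑ C ∈ J, l C * u k C = 0) →
      ∀ C ∈ J, (2 : ℤ) ^ m ∣ l C := by
    intro m
    induction m with
    | zero => simp
    | succ m ih =>
      intro l hl C hC
      have h2 := ev l hl
      have := ih (fun C => l C / 2) (fun k hk => ?_) C hC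
      · rw [pow_succ', ← Int.mul_ediv_cancel' (h2 C hC)]
        exact mul_dvd_mul_left _ this
      · have : 2 * ∑ C ∈ J, l C / 2 * u k C = 0 := by
          rw [← hl k hk, mul_sum]
          refine sum_congr rfl fun C hC => ?_
          rw [← mul_assoc, Int.mul_ediv_cancel' (h2 C hC)]
        omega
  intro C hC
  refine Int.eq_zero_of_dvd_of_natAbs_lt_natAbs (ds (l C).natAbs l hl C hC) ?_
  simpa [Int.natAbs_pow] using Nat.lt_two_pow_self

end Pool.Agent.H.MP_49e1e0_lc
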