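import Pool.Agent.H.MP_49e1e0_lc.B

set_option autoImplicit false

namespace Pool.Agent.H.MP_49e1e0_lc

open Finset Module

variable {α G : Type*} [AddCommGroup G] [Module F G]

lemma iso [DecidableEq G] {ι : Type*} [DecidableEq ι] (e : Basis ι F G) (S : Finset ι) :
    ∀ V : Finset G, ∑ i ∈ S, (V.filter fun x => x + e i ∈ V).card ≤
      2 * V.card * Nat.log 2 V.card := by
  induction S using Finset.induction_on with
  | empty => simp
  | insert k S hk ih =>
    intro V
    rw [sum_insert hk]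
    set V0 := V.filter fun x => e.coord k x = 0 with h0
    set V1 := V.filter fun x => ¬e.coord k x = 0 with h1
    have hc : V0.card + V1.card = V.card := card_filter_add_card_filter_not _
    have a1 : ∀ i ∈ S, (V.filter fun x => x + e i ∈ V).card =
        (V0.filter fun x => x + e i ∈ V0).card + (V1.filter fun x => x + e i ∈ V1).card := by
      intro i hi
      have hik : e.coord k (e i) = 0 := by
        have : i ≠ k := fun h => hk (h ▸ hi)
        simp [Finsupp.single_apply, this]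
      rw [← card_filter_add_card_filter_not (s := V.filter fun x => x + e i ∈ V)
        (fun x => e.coord k x = 0)]
      congr 2 <;> ext x <;> simp only [h0, h1, mem_filter, map_add, hik, add_zero] <;> tauto
    have hkk : e.coord k (e k) = 1 := by simp
    have h11 : (1 : F) + 1 = 0 := by decide
    have a2 : ∀ W : Finset G, (∀ x ∈ V, x + e k ∈ V → x ∈ W ∨ x + e k ∈ W) →
        (V.filter fun x => x + e k ∈ V).card ≤ 2 * W.card := by
      intro W hW
      have : (V.filter fun x => x + e k ∈ V) ⊆ W ∪ W.image (fun x => x - e k) := fun x hx => by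
        rcases hW x (mem_filter.1 hx).1 (mem_filter.1 hx).2 with h | h
        · exact mem_union_left _ h
        · exact mem_union_right _ (mem_image.2 ⟨_, h, by simp⟩)
      have b1 := card_le_card this
      have b2 := card_union_le W (W.image (fun x => x - e k))
      have b3 : (W.image (fun x => x - e k)).card ≤ W.card := card_image_le
      omega
    have a3 := a2 V0 fun x hx hx' => by
      rcases F01 (e.coord k x) with h | h
      · exact .inl (mem_filter.2 ⟨hx, h⟩)
      · exact .inr (mem_filter.2 ⟨hx', by rw [map_add, h, hkk, h11]⟩)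
    have a4 := a2 V1 fun x hx hx' => by
      rcases F01 (e.coord k x) with h | h
      · exact .inr (mem_filter.2 ⟨hx', by rw [map_add, h, hkk]; decide⟩)
      · exact .inl (mem_filter.2 ⟨hx, by rw [h]; decide⟩)
    rw [sum_congr rfl a1, sum_add_distrib, ← hc]
    have b0 := ih V0
    have b1 := ih V1
    have key : ∀ x y : ℕ, x ≤ y → 2 * x + (2 * x * Nat.log 2 x + 2 * y * Nat.log 2 y) ≤
        2 * (x + y) * Nat.log 2 (x + y) := by
      intro x y hxy
      rcases Nat.eq_zero_or_pos x with rfl | hx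
      · simp
      have c1 : Nat.log 2 y ≤ Nat.log 2 (x + y) := Nat.log_mono_right (by omega)
      have c2 : Nat.log 2 x + 1 ≤ Nat.log 2 (x + y) := by
        rw [← Nat.log_mul_base (by norm_num) hx.ne']
        exact Nat.log_mono_right (by omega)
      nlinarith [Nat.mul_le_mul_left (2 * x) c2, Nat.mul_le_mul_left (2 * y) c1]
    rcases le_total V0.card V1.card with h | h
    · have := key _ _ h
      omega
    · have := key _ _ h
      rw [add_comm V1.card] at this
      omega

lemma clean {β : Type*} [DecidableEq β] (ρ : Fin 3 → α → β) (d : ℝ) (hd : 0 ≤ d) (J : Finset α) :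
    ∃ J' ⊆ J, (J.card : ℝ) ≤ J'.card + d * ∑ r, ((J.image (ρ r)).card : ℝ) ∧
      ∀ r, ∀ C ∈ J', d ≤ (J'.filter fun C' => ρ r C' = ρ r C).card := by
  classical
  induction J using Finset.strongInduction with
  | H J ih =>
    by_cases h : ∀ r, ∀ C ∈ J, d ≤ (J.filter fun C' => ρ r C' = ρ r C).card
    · exact ⟨J, Subset.refl _, le_add_of_nonneg_right (by positivity), h⟩
    push Not at h
    obtain ⟨r, C, hC, hlt⟩ := h
    obtain ⟨J', h1, h2, h3⟩ := ih (J.filter fun C' => ¬ρ r C' = ρ r C)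
      (filter_ssubset.2 ⟨C, hC, by simp⟩)
    refine ⟨J', h1.trans (filter_subset _ _), ?_, h3⟩
    have a1 : ((J.filter fun C' => ρ r C' = ρ r C).card : ℝ) +
        (J.filter fun C' => ¬ρ r C' = ρ r C).card = J.card := by
      exact_mod_cast card_filter_add_card_filter_not _
    have a2 : ∑ r', ((J.filter fun C' => ¬ρ r C' = ρ r C).image (ρ r')).card <
        ∑ r', (J.image (ρ r')).card := by
      refine sum_lt_sum (fun r' _ => card_le_card (image_subset_image (filter_subset _ _)))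
        ⟨r, mem_univ _, card_lt_card ⟨image_subset_image (filter_subset _ _), fun k => ?_⟩⟩
      obtain ⟨C', hC', k'⟩ := mem_image.1 (k (mem_image_of_mem _ hC))
      exact (mem_filter.1 hC').2 k'
    have a3 : ∑ r', (((J.filter fun C' => ¬ρ r C' = ρ r C).image (ρ r')).card : ℝ) + 1 ≤
        ∑ r', ((J.image (ρ r')).card : ℝ) := by exact_mod_cast a2
    nlinarith

lemma exb [FiniteDimensional F G] (s t : Set G) (hst : s ⊆ t) :
    ∃ (D : ℕ) (e : Basis (Fin D) F G) (S' S : Finset (Fin D)), (∀ i ∈ S', e i ∈ s) ∧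
      (∀ i ∈ S, e i ∈ t) ∧ (∀ g ∈ s, ∀ i ∉ S', e.coord i g = 0) ∧
      (∀ g ∈ t, ∀ i ∉ S, e.coord i g = 0) := by
  classical
  obtain ⟨b1, p1, -, p2, p3⟩ := exists_linearIndepOn_id_extension
    (linearIndepOn_empty F id) (Set.empty_subset s)
  obtain ⟨b2, q1, q0, q2, q3⟩ := exists_linearIndepOn_id_extension p3 (p1.trans hst)
  let e0 := Basis.extend q3
  letI := FiniteDimensional.fintypeBasisIndex e0
  let e := e0.reindex (Fintype.equivFin _)
  have hr : b2 ⊆ Set.range e := by
    simp only [e, e0, Basis.range_reindex, Basis.range_extend]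
    exact q3.subset_extend _
  have key : ∀ b ⊆ b2, ∀ g ∈ Submodule.span F b, ∀ i ∉ univ.filter (fun i => e i ∈ b),
      e.coord i g = 0 := by
    intro b hb g hg i hi
    have : b = e '' {i | e i ∈ b} := by
      rw [show {i | e i ∈ b} = e ⁻¹' b from rfl, Set.image_preimage_eq_of_subset (hb.trans hr)]
    rw [this] at hg
    have h := e.repr_support_subset_of_mem_span _ hg
    by_contra k
    exact hi (mem_filter.2 ⟨mem_univ _, h (by simpa using k)⟩)
  exact ⟨_, e, univ.filter (fun i => e i ∈ b1), univ.filter (fun i => e i ∈ b2),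
    fun i hi => p1 (mem_filter.1 hi).2, fun i hi => q1 (mem_filter.1 hi).2,
    fun g hg => key b1 q0 g (p2 hg), fun g hg => key b2 le_rfl g (q2 hg)⟩

lemma logle (n : ℕ) (q : ℝ) (hq : 1 ≤ q) (hn : (n : ℝ) ≤ q ^ 8) : (Nat.log 2 n : ℝ) ≤ 16 * q := by
  rcases Nat.eq_zero_or_pos n with rfl | h
  · simp; positivity
  have a1 : ((2 : ℝ) ^ Nat.log 2 n) ≤ q ^ 8 :=
    le_trans (by exact_mod_cast Nat.pow_log_le_self 2 h.ne') hn
  have a2 := Real.log_le_log (by positivity) a1
  rw [Real.log_pow, Real.log_pow] at a2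
  have a3 := Real.log_le_sub_one_of_pos (show 0 < q by positivity)
  have a4 := Real.log_two_gt_d9
  have a5 : (0 : ℝ) ≤ Nat.log 2 n := by positivity
  push_cast at a2
  nlinarith

lemma uniq [DecidableEq G] [FiniteDimensional F G] (J : Finset α) (a b c : α → G)
    (w : α → Dual F G) (hw : Sep J a b c w) (V : Finset G) (hV : Six J a b c V)
    (hi : ∀ C ∈ J, ∀ C' ∈ J, a C = a C' → b C = b C' → C = C')
    (q : ℝ) (hq : 1 ≤ q) (hn : (V.card : ℝ) ≤ q ^ 8) : (J.card : ℝ) ≤ 1061 * q ^ 12 := by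
  classical
  obtain ⟨J', s1, s2, s3⟩ := clean ![a, b, c] (q ^ 4) (by positivity) J
  have s4 : ∑ r, ((J.image (![a, b, c] r)).card : ℝ) ≤ 3 * q ^ 8 := by
    have : ∀ f : α → G, (∀ C ∈ J, f C ∈ V) → ((J.image f).card : ℝ) ≤ q ^ 8 := fun f hf =>
      le_trans (by exact_mod_cast card_le_card (image_subset_iff.2 hf)) hn
    have t1 := this a fun C hC => (hV C hC).1
    have t2 := this b fun C hC => (hV C hC).2.1
    have t3 := this c fun C hC => (hV C hC).2.2.1
    simp only [Fin.sum_univ_three, Matrix.cons_val_zero, Matrix.cons_val_one, Matrix.cons_val]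
    linarith
  obtain ⟨D, e, S', S, e1, e2, e3, e4⟩ := exb (G := G) (a '' J' ∪ b '' J')
    ((a '' J' ∪ b '' J') ∪ c '' J') Set.subset_union_left
  have c0 := core e J' a b c w (fun C hC C' hC' => hw C (s1 hC) C' (s1 hC')) V
    (fun C hC => hV C (s1 hC)) S' S
    (fun C hC i hi => ⟨e3 _ (.inl ⟨C, hC, rfl⟩) i hi, e3 _ (.inr ⟨C, hC, rfl⟩) i hi⟩)
    (fun C hC i hi => ⟨e4 _ (.inl (.inl ⟨C, hC, rfl⟩)) i hi,
      e4 _ (.inl (.inr ⟨C, hC, rfl⟩)) i hi, e4 _ (.inr ⟨C, hC, rfl⟩) i hi⟩)
    (q ^ 4) (by positivity) (by rw [← pow_mul]; exact hn)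
  let N : G → ℕ := fun s => (V.filter fun x => x + s ∈ V).card
  have n1 : ∀ s ∈ a '' J' ∪ b '' J', q ^ 4 ≤ N s := by
    rintro s (⟨C, hC, rfl⟩ | ⟨C, hC, rfl⟩)
    · refine (s3 0 C hC).trans (Nat.cast_le.2 (card_le_card_of_injOn b (fun x hx => ?_)
        fun x hx y hy k => ?_))
      · obtain ⟨k1, k2⟩ := mem_filter.1 (mem_coe.1 hx)
        have k3 : a x = a C := k2
        refine mem_coe.2 (mem_filter.2 ⟨(hV x (s1 k1)).2.1, ?_⟩)
        rw [← k3, add_comm]
        exact (hV x (s1 k1)).2.2.2.1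
      · obtain ⟨k1, k2⟩ := mem_filter.1 (mem_coe.1 hx)
        obtain ⟨k3, k4⟩ := mem_filter.1 (mem_coe.1 hy)
        exact hi x (s1 k1) y (s1 k3) (k2.trans k4.symm) k
    · refine (s3 1 C hC).trans (Nat.cast_le.2 (card_le_card_of_injOn a (fun x hx => ?_)
        fun x hx y hy k => ?_))
      · obtain ⟨k1, k2⟩ := mem_filter.1 (mem_coe.1 hx)
        have k3 : b x = b C := k2
        refine mem_coe.2 (mem_filter.2 ⟨(hV x (s1 k1)).1, ?_⟩)
        rw [← k3]
        exact (hV x (s1 k1)).2.2.2.1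
      · obtain ⟨k1, k2⟩ := mem_filter.1 (mem_coe.1 hx)
        obtain ⟨k3, k4⟩ := mem_filter.1 (mem_coe.1 hy)
        exact hi x (s1 k1) y (s1 k3) k (k2.trans k4.symm)
  have n2 : ∀ s ∈ (a '' J' ∪ b '' J') ∪ c '' J', q ^ 2 ≤ N s := by
    rintro s (h | ⟨C, hC, rfl⟩)
    · exact (pow_le_pow_right₀ hq (by norm_num)).trans (n1 s h)
    have : q ^ 4 ≤ ((V.filter fun x => x + c C ∈ V) ×ˢ (V.filter fun x => x + c C ∈ V)).card := by
      refine (s3 2 C hC).trans (Nat.cast_le.2 (card_le_card_of_injOn (fun x => (a x, b x))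
        (fun x hx => ?_) fun x hx y hy k => ?_))
      · obtain ⟨k1, k2⟩ := mem_filter.1 (mem_coe.1 hx)
        have k3 : c x = c C := k2
        obtain ⟨v1, v2, -, -, v5, v6⟩ := hV x (s1 k1)
        rw [k3] at v5 v6
        exact mem_coe.2 (mem_product.2 ⟨mem_filter.2 ⟨v1, v5⟩, mem_filter.2 ⟨v2, v6⟩⟩)
      · exact hi x (s1 (mem_filter.1 (mem_coe.1 hx)).1) y (s1 (mem_filter.1 (mem_coe.1 hy)).1)
          (congrArg Prod.fst k) (congrArg Prod.snd k)
    rw [card_product] at this
    push_cast at this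
    exact abs_le_of_sq_le_sq' (a := q ^ 2) (b := (N (c C) : ℝ)) (by simp only [N]; nlinarith)
      (by positivity) |>.2
  have lg : ∀ T : Finset (Fin D), ∀ x : ℝ, (∀ i ∈ T, x ≤ N (e i)) → T.card * x ≤ 32 * q ^ 9 := by
    intro T x hx
    have b1 : ((∑ i ∈ T, N (e i) : ℕ) : ℝ) ≤ (2 * V.card * Nat.log 2 V.card : ℕ) :=
      Nat.cast_le.2 (iso e T V)
    have b2 := card_nsmul_le_sum T (fun i => (N (e i) : ℝ)) x hx
    have b3 := logle _ q hq hn
    push_cast at b1
    rw [nsmul_eq_mul] at b2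
    have b4 : (2 * V.card * Nat.log 2 V.card : ℝ) ≤ 2 * q ^ 8 * (16 * q) := by gcongr
    nlinarith
  have d1 : (S'.card : ℝ) ≤ 32 * q ^ 5 :=
    le_of_mul_le_mul_right (by nlinarith [lg S' _ fun i hi => n1 _ (e1 i hi)])
      (show 0 < q ^ 4 by positivity)
  have d2 : (S.card : ℝ) ≤ 32 * q ^ 7 :=
    le_of_mul_le_mul_right (by nlinarith [lg S _ fun i hi => n2 _ (e2 i hi)])
      (show 0 < q ^ 2 by positivity)
  have d3 : (S'.card : ℝ) * S.card ≤ 32 * q ^ 5 * (32 * q ^ 7) := by gcongr
  have d4 : q ^ 7 ≤ q ^ 12 := pow_le_pow_right₀ hq (by norm_num)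
  have d5 : 1 ≤ q ^ 12 := one_le_pow₀ hq
  have d6 : q ^ 4 * ∑ r, ((J.image (![a, b, c] r)).card : ℝ) ≤ q ^ 4 * (3 * q ^ 8) := by gcongr
  nlinarith

lemma img [DecidableEq G] [FiniteDimensional F G] (J : Finset α) (a b c : α → G)
    (w : α → Dual F G) (hw : Sep J a b c w) (V : Finset G) (hV : Six J a b c V)
    (q : ℝ) (hq : 1 ≤ q) (hn : (V.card : ℝ) ≤ q ^ 8) :
    ((J.image fun C => (a C, b C)).card : ℝ) ≤ 1061 * q ^ 12 := by
  classical
  obtain ⟨J', s1, s2, s3⟩ := exists_subset_injOn_image_eq_of_surjOn (f := fun C => (a C, b C))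
    (J : Set α) (J.image fun C => (a C, b C)) (by simp [Set.SurjOn])
  rw [← s3, card_image_of_injOn s2]
  exact uniq J' a b c w (fun C hC C' hC' => hw C (s1 hC) C' (s1 hC')) V
    (fun C hC => hV C (s1 hC)) (fun C hC C' hC' k k' => s2 hC hC' (Prod.ext k k')) q hq hn

lemma main [DecidableEq G] [FiniteDimensional F G] (J : Finset α) (a b c : α → G)
    (w : α → Dual F G) (hw : Sep J a b c w) (V : Finset G) (hV : Six J a b c V)
    (q : ℝ) (hq : 1 ≤ q) (hn : (V.card : ℝ) ≤ q ^ 8) : (J.card : ℝ) ≤ 4246 * q ^ 12 := by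
  classical
  obtain ⟨D, e, -, S, -, e2, -, e4⟩ := exb (G := G) (V : Set G) V le_rfl
  have a0 := step3 e J a b c w hw S fun C hC i hi =>
    ⟨e4 _ (hV C hC).1 i hi, e4 _ (hV C hC).2.1 i hi, e4 _ (hV C hC).2.2.1 i hi⟩
  have a1 : S.card ≤ V.card := card_le_card_of_injOn e e2 e.injective.injOn
  have tw : ∀ x : G, x + x = 0 := fun x => by
    rw [← two_smul F x, show (2 : F) = 0 from rfl, zero_smul]
  have b1 := img J a b c w hw V hV q hq hn
  have b2 := img J a c b w (fun C hC C' hC' => by rw [← hw C hC C' hC']; tauto) V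
    (fun C hC => by have := hV C hC; rw [add_comm (c C)]; tauto) q hq hn
  have b3 := img J b c a w (fun C hC C' hC' => by rw [← hw C hC C' hC']; tauto) V
    (fun C hC => by have := hV C hC; rw [add_comm (b C) (a C), add_comm (c C) (a C)]; tauto)
    q hq hn
  have b4 := img J (fun C => a C + b C) (fun C => b C + c C) b w (fun C hC C' hC' => by
      rw [← hw C hC C' hC']
      simp only [map_add]
      constructor
      · rintro ⟨h1, h2, h3⟩
        rw [h3] at h1 h2
        exact ⟨by simpa using h1, h3, by simpa using h2⟩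
      · rintro ⟨h1, h2, h3⟩
        simp [h1, h2, h3]) V
    (fun C hC => by
      have := hV C hC
      have k1 : a C + b C + (b C + c C) = a C + c C := by
        rw [add_assoc, ← add_assoc (b C), tw, zero_add]
      have k2 : a C + b C + b C = a C := by rw [add_assoc, tw, add_zero]
      have k3 : b C + c C + b C = c C := by rw [add_right_comm, tw, zero_add]
      simp only [k1, k2, k3]
      tauto) q hq hn
  simp only [Fin.sum_univ_four, k1, k2, Matrix.cons_val_zero, Matrix.cons_val_one,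
    Matrix.cons_val] at a0
  have a2 : (J.card : ℝ) ≤ (J.image fun C => (a C, b C)).card + (J.image fun C => (a C, c C)).card
      + (J.image fun C => (b C, c C)).card + (J.image fun C => (a C + b C, b C + c C)).card
      + V.card + 1 := by exact_mod_cast a0.trans (by omega)
  have d4 : q ^ 8 ≤ q ^ 12 := pow_le_pow_right₀ hq (by norm_num)
  have d5 : 1 ≤ q ^ 12 := one_le_pow₀ hq
  linarith

end Pool.Agent.H.MP_49e1e0_lc
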